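import Pool.Agent.Lib.MP_776403_ag.SD.WG.Spec
import Pool.Agent.Lib.MP_776403_ag.SD.J.Fin

/-!
# THEOREM W, part GEO: (GCol) the colength of the module of the gradients in the chart `z + σ x`
-/

set_option autoImplicit false

open MvPolynomial

noncomputable section

namespace Pool.Agent.Lib.MP_776403_ag.SD

namespace GColAux

variable {N : ℕ} {I : Ideal (Sx N)} {x : Vx N} {c : ℕ}

/-- Cramer's rule for an arbitrary specialisation `θ`. -/
theorem D_mul_gen (L : Loc I x c) (θ : Sx N →ₐ[ℂ] Polynomial ℂ) (e : Fin c → Polynomial ℂ) :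
    (fun b => θ L.dt * e b) ∈ Submodule.span (Polynomial ℂ)
      {e : Fin c → Polynomial ℂ | ∃ F ∈ I, e = fun b => θ (pderiv (L.B b) F)} := by
  classical
  set M' : Matrix (Fin c) (Fin c) (Polynomial ℂ) := L.M.map θ with hM'
  have hdet : M'.det = θ L.dt := by
    rw [hM', Loc.dt, AlgHom.map_det]
    rfl
  have h1 : (fun b => θ L.dt * e b) =
      ∑ i, (∑ b', e b' * M'.adjugate b' i) • (fun b => θ (pderiv (L.B b) (L.F i))) := by
    funext b
    rw [Finset.sum_apply]
    have h2 : ∀ i, ((∑ b', e b' * M'.adjugate b' i) •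
        (fun b => θ (pderiv (L.B b) (L.F i)))) b =
        ∑ b', e b' * (M'.adjugate b' i * M' i b) := by
      intro i
      rw [Pi.smul_apply, smul_eq_mul, Finset.sum_mul]
      exact Finset.sum_congr rfl fun b' _ => by rw [mul_assoc]; rfl
    rw [Finset.sum_congr rfl fun i _ => h2 i, Finset.sum_comm]
    have h3 : ∀ b', ∑ i, e b' * (M'.adjugate b' i * M' i b) =
        e b' * ((M'.adjugate * M') b' b) := by
      intro b'
      rw [Matrix.mul_apply, Finset.mul_sum]
    rw [Finset.sum_congr rfl fun b' _ => h3 b', Matrix.adjugate_mul, hdet]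
    rw [Finset.sum_eq_single b]
    · rw [Matrix.smul_apply, Matrix.one_apply_eq, smul_eq_mul, mul_one, mul_comm]
    · intro b' _ hb'
      rw [Matrix.smul_apply, Matrix.one_apply_ne hb', smul_zero, mul_zero]
    · intro h
      exact absurd (Finset.mem_univ b) h
  rw [h1]
  exact Submodule.sum_mem _ fun i _ => Submodule.smul_mem _ _
    (Submodule.subset_span ⟨L.F i, L.memF i, rfl⟩)

/-- The Fitting ideal is the image of the ideal of the minors. -/
theorem fit_gen {J : Ideal (Sx N)} (L : Loc I x c) (θ : Sx N →ₐ[ℂ] Polynomial ℂ)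
    (hθ : ∀ F ∈ J, θ F = 0) :
    Ideal.span {p : Polynomial ℂ | ∃ e : Fin c → (Fin c → Polynomial ℂ),
      (∀ i, e i ∈ {e | ∃ F ∈ I, e = fun b => θ (pderiv (L.B b) F)}) ∧
        p = Matrix.det (Matrix.of e)} = (idB I J L.B).map θ := by
  have hdet : ∀ F : Fin c → Sx N, θ (mnr F L.B) =
      Matrix.det (Matrix.of fun i b => θ (pderiv (L.B b) (F i))) := by
    intro F
    unfold mnr
    rw [AlgHom.map_det]
    rfl
  apply le_antisymm
  · refine Ideal.span_le.mpr ?_
    rintro p ⟨e, he, rfl⟩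
    choose F hF hFe using he
    have h1 : Matrix.det (Matrix.of e) = θ (mnr F L.B) := by
      rw [hdet]
      congr 1
      ext1 i b
      rw [Matrix.of_apply, Matrix.of_apply, hFe i]
    rw [h1]
    exact Ideal.mem_map_of_mem _ (Ideal.mem_sup_right (Ideal.subset_span ⟨F, hF, rfl⟩))
  · refine Ideal.map_le_iff_le_comap.mpr (sup_le ?_ (Ideal.span_le.mpr ?_))
    · intro F hF
      rw [Ideal.mem_comap, hθ F hF]
      exact Ideal.zero_mem _
    · rintro G ⟨F, hF, rfl⟩
      rw [SetLike.mem_coe, Ideal.mem_comap, hdet]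
      exact Ideal.subset_span ⟨fun i b => θ (pderiv (L.B b) (F i)),
        fun i => ⟨F i, hF i, rfl⟩, rfl⟩

end GColAux

open GColAux in
/-- (GCol) from its parts. -/
theorem gCol : S_Good → S_Hom → S_LineI → S_JFit → S_JRev → S_JTr → S_JSur → S_GCol := by
  intro hGood hHom hLineI hFit hRev hTr hSur N c a I hI hIh hS x z hline hnum L
  obtain ⟨hJ, hJh, -, -, -⟩ := hLineI N x z hline.1
  set J := lineI x z with hJdef
  have hIJ : I ≤ J := fun F hF s t => hline.2 s t F hF
  set A := idB I J L.B with hA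
  have hAh : IsHom A := JAsmAux.idB_hom hIh hJh L.B
  have hDA : L.dt ∈ A := Ideal.mem_sup_right (Ideal.subset_span ⟨L.F, L.memF, rfl⟩)
  have hdth : L.dt.IsHomogeneous L.dg := (hHom N c I x z L).1
  have hdtx : eval x L.dt ≠ 0 := L.detx
  obtain ⟨μ, hμ⟩ := hGood N c I x z L
  set v := z + μ • x with hv
  have hlI : lineI x v = J := JAsmAux.lineI_add x z μ
  -- the specialisations kill `J`
  have hk1 : ∀ F ∈ J, lin z x F = 0 := by
    intro F hF
    refine poly_ext fun t => ?_
    rw [lin_eval, Polynomial.eval_zero]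
    have := hF t 1
    have e : t • x + (1 : ℂ) • z = z + t • x := by module
    rwa [e] at this
  have hk2 : ∀ F ∈ J, lin x v F = 0 := by
    intro F hF
    refine poly_ext fun t => ?_
    rw [lin_eval, Polynomial.eval_zero]
    have := hF (1 + t * μ) t
    have e : (1 + t * μ) • x + t • z = x + t • v := by rw [hv]; module
    rwa [e] at this
  -- the chart
  have hD1 : lin z x L.dt ≠ 0 := by
    intro h
    have h1 := lin_coeff_top hdth z x
    rw [h, Polynomial.coeff_zero] at h1
    exact hdtx h1.symm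
  have hD2 : lin x v L.dt ≠ 0 := by
    intro h
    have h1 := lin_eval x v L.dt 0
    rw [h, Polynomial.eval_zero, zero_smul, add_zero] at h1
    exact hdtx h1.symm
  obtain ⟨hf1, hf2⟩ := hFit c {e | ∃ F ∈ I, e = fun b => lin z x (pderiv (L.B b) F)}
    (lin z x L.dt) hD1 (D_mul_gen L (lin z x))
  have hf3 := (hFit c {e | ∃ F ∈ I, e = fun b => lin x v (pderiv (L.B b) F)}
    (lin x v L.dt) hD2 (D_mul_gen L (lin x v))).2
  rw [fit_gen (J := J) L (lin z x) hk1] at hf2
  rw [fit_gen (J := J) L (lin x v) hk2] at hf3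
  have hr1 := hRev N A hAh x v L.dt L.dg hDA hdth hdtx
  have hr2 := hRev N A hAh v x L.dt L.dg hDA hdth hμ
  have hcol : Module.finrank ℂ (Polynomial ℂ ⧸ A.map (lin x v)) = col A x z := by
    have e1 : col A x v = col A x z := by rw [hv, hTr]
    have e3 : Module.finrank ℂ (Polynomial ℂ ⧸ A.map (lin v x)) = col A x v := rfl
    have e4 : col A v x = Module.finrank ℂ (Polynomial ℂ ⧸ A.map (lin x v)) := rfl
    rw [e3, e4, e1] at hr2
    rw [e1] at hr1
    exact le_antisymm hr1 hr2
  have hlinev : IsLine I x v := by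
    refine ⟨?_, fun s t => ?_⟩
    · rw [LinearIndependent.pair_iff]
      intro s t hst
      have e : s • x + t • v = (s + t * μ) • x + t • z := by rw [hv]; module
      rw [e] at hst
      obtain ⟨h1, h2⟩ := LinearIndependent.pair_iff.mp hline.1 _ _ hst
      refine ⟨?_, h2⟩
      rw [h2, zero_mul, add_zero] at h1
      exact h1
    · have e : s • x + t • v = (s + t * μ) • x + t • z := by rw [hv]; module
      rw [e]
      exact hline.2 _ _
  refine ⟨hf1, ?_⟩
  obtain ⟨m, hm1, hm2⟩ := (hnum.and (hSur N c I hI hIh hS x v hlinev L hμ)).exists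
  rw [hlI] at hm2
  have e5 : Module.finrank ℂ ((Fin c → Polynomial ℂ) ⧸ L.E v) = col A x z := by
    rw [← hcol, ← hf3]
    rfl
  have e6 : Module.finrank ℂ ((Fin c → Polynomial ℂ) ⧸ L.EZ z) = col A x z := hf2
  rw [e6]
  rw [e5] at hm2
  have e7 : c * (m + 1) = c * m + c := by ring
  omega

/-- (GCol) The colength. -/
theorem tGCol : S_GCol :=
  gCol (eGood (eHom eLinB)) (eHom eLinB) (eLineI eLinB) (jFit jPid) (jRev jPid) jTr
    (jSur (eHom eLinB) (eCrL eLinB) (eLineI eLinB))

end Pool.Agent.Lib.MP_776403_ag.SD
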