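import Pool.Agent.Lib.MP_776403_ag.SD.WG.Spec

/-!
# THEOREM W, part GEO: homogeneous polynomials in `σ` and division by a monic one (helper50)
-/

set_option autoImplicit false

open MvPolynomial

noncomputable section

namespace Pool.Agent.Lib.MP_776403_ag.SD

private theorem GMod_mul {N m n : ℕ} {p q : Polynomial (Sx N)} (hp : Hg m p) (hq : Hg n q) :
    Hg (m + n) (p * q) := by
  intro l
  rw [Polynomial.coeff_mul]
  refine ⟨fun hl => ?_, fun hl => ?_⟩
  · refine IsHomogeneous.sum _ _ _ fun x hx => ?_
    rw [Finset.HasAntidiagonal.mem_antidiagonal] at hx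
    by_cases h1 : x.1 ≤ m
    · by_cases h2 : x.2 ≤ n
      · have h3 := ((hp x.1).1 h1).mul ((hq x.2).1 h2)
        have h4 : m - x.1 + (n - x.2) = m + n - l := by omega
        rwa [h4] at h3
      · rw [(hq x.2).2 (by omega), mul_zero]
        exact isHomogeneous_zero _ _ _
    · rw [(hp x.1).2 (by omega), zero_mul]
      exact isHomogeneous_zero _ _ _
  · refine Finset.sum_eq_zero fun x hx => ?_
    rw [Finset.HasAntidiagonal.mem_antidiagonal] at hx
    by_cases h1 : x.1 ≤ m
    · rw [(hq x.2).2 (by omega), mul_zero]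
    · rw [(hp x.1).2 (by omega), zero_mul]

private theorem GMod_sub {N n : ℕ} {p q : Polynomial (Sx N)} (hp : Hg n p) (hq : Hg n q) :
    Hg n (p - q) := by
  intro l
  rw [Polynomial.coeff_sub]
  refine ⟨fun hl => ((hp l).1 hl).sub ((hq l).1 hl), fun hl => ?_⟩
  rw [(hp l).2 hl, (hq l).2 hl, sub_zero]

private theorem GMod_X {N : ℕ} (k : ℕ) : Hg k (Polynomial.X ^ k : Polynomial (Sx N)) := by
  intro l
  rw [Polynomial.coeff_X_pow]
  refine ⟨fun hl => ?_, fun hl => if_neg (by omega)⟩
  by_cases h : l = k
  · rw [if_pos h, h, Nat.sub_self]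
    exact isHomogeneous_one _ _
  · rw [if_neg h]
    exact isHomogeneous_zero _ _ _

private theorem GMod_C {N n : ℕ} {F : Sx N} (hF : F.IsHomogeneous n) :
    Hg n (Polynomial.C F) := by
  intro l
  rw [Polynomial.coeff_C]
  refine ⟨fun hl => ?_, fun hl => if_neg (by omega)⟩
  by_cases h : l = 0
  · rw [if_pos h, h, Nat.sub_zero]
    exact hF
  · rw [if_neg h]
    exact isHomogeneous_zero _ _ _

private theorem GMod_zero {N : ℕ} (n : ℕ) : Hg n (0 : Polynomial (Sx N)) := by
  intro l
  rw [Polynomial.coeff_zero]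
  exact ⟨fun _ => isHomogeneous_zero _ _ _, fun _ => rfl⟩

private theorem GMod_mod {N : ℕ} (D : Polynomial (Sx N)) (g : ℕ) (hD : D.Monic)
    (hg : D.natDegree = g) (hHg : Hg g D) (n : ℕ) :
    ∀ (d : ℕ) (p : Polynomial (Sx N)), p.natDegree = d → Hg n p → Hg n (p %ₘ D) := by
  intro d
  induction d using Nat.strong_induction_on with
  | _ d ih =>
    intro p hd hp
    by_cases hlt : p.degree < D.degree
    · rw [(Polynomial.modByMonic_eq_self_iff hD).2 hlt]
      exact hp
    · rw [not_lt] at hlt
      have hp0 : p ≠ 0 := by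
        rintro rfl
        rw [Polynomial.degree_zero, le_bot_iff, Polynomial.degree_eq_bot] at hlt
        exact hD.ne_zero hlt
      have hgd : g ≤ d := by
        rw [← hg, ← hd]
        exact Polynomial.natDegree_le_natDegree hlt
      have hdn : d ≤ n := by
        by_contra h
        apply hp0
        rw [← Polynomial.leadingCoeff_eq_zero, Polynomial.leadingCoeff, hd]
        exact (hp d).2 (by omega)
      have hl : p.leadingCoeff.IsHomogeneous (n - d) := by
        rw [Polynomial.leadingCoeff, hd]
        exact (hp d).1 hdn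
      have hq : Hg n (D * (Polynomial.C p.leadingCoeff *
          Polynomial.X ^ (p.natDegree - D.natDegree))) := by
        have h1 := GMod_mul hHg (GMod_mul (GMod_C hl)
          (GMod_X (N := N) (p.natDegree - D.natDegree)))
        have h2 : g + (n - d + (p.natDegree - D.natDegree)) = n := by omega
        rwa [h2] at h1
      have hdeg := Polynomial.div_wf_lemma ⟨hlt, hp0⟩ hD
      set p' := p - D * (Polynomial.C p.leadingCoeff *
          Polynomial.X ^ (p.natDegree - D.natDegree)) with hp'
      have hpp : p = p' + D * (Polynomial.C p.leadingCoeff *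
          Polynomial.X ^ (p.natDegree - D.natDegree)) := by rw [hp']; ring
      have hmod : p %ₘ D = p' %ₘ D := by
        conv_lhs => rw [hpp]
        rw [Polynomial.add_modByMonic, Polynomial.self_mul_modByMonic hD, add_zero]
      rw [hmod]
      by_cases h0 : p' = 0
      · rw [h0, Polynomial.zero_modByMonic]
        exact GMod_zero n
      · refine ih p'.natDegree ?_ p' rfl (GMod_sub hp hq)
        rw [← hd]
        exact Polynomial.natDegree_lt_natDegree h0 hdeg

theorem tGMod : S_GMod := by
  intro N
  refine ⟨fun m n p q hp hq => GMod_mul hp hq, fun n p q hp hq l => ?_, fun k => GMod_X k,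
    fun n F hF => GMod_C hF, fun D g hD hg hHg n p hp => GMod_mod D g hD hg hHg n _ p rfl hp⟩
  rw [Polynomial.coeff_add]
  refine ⟨fun hl => ((hp l).1 hl).add ((hq l).1 hl), fun hl => ?_⟩
  rw [(hp l).2 hl, (hq l).2 hl, add_zero]

end Pool.Agent.Lib.MP_776403_ag.SD
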