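import Pool.Agent.Lib.MP_776403_ag.SD.WG.Spec

/-!
# THEOREM W, part GEO, module GNa: `M n_F = 0` modulo `J`
-/

set_option autoImplicit false

open MvPolynomial

noncomputable section

namespace Pool.Agent.Lib.MP_776403_ag.SD

private theorem GNa_sum {A : Type} [CommRing A] (D T φ : Polynomial A) (l : ℕ) :
    ∑ k ∈ Finset.range (φ.natDegree + 1), φ.coeff k * ((T * Polynomial.X ^ k) %ₘ D).coeff l =
      ((T * φ) %ₘ D).coeff l := by
  conv_rhs => rw [φ.as_sum_range_C_mul_X_pow, Finset.mul_sum]
  rw [show (∑ i ∈ Finset.range (φ.natDegree + 1), T * (Polynomial.C (φ.coeff i) * Polynomial.X ^ i)) =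
    ∑ i ∈ Finset.range (φ.natDegree + 1), φ.coeff i • (T * Polynomial.X ^ i) from
      Finset.sum_congr rfl fun i _ => by rw [Polynomial.smul_eq_C_mul]; ring]
  rw [show ((∑ i ∈ Finset.range (φ.natDegree + 1), φ.coeff i • (T * Polynomial.X ^ i)) %ₘ D) =
    Polynomial.modByMonicHom D (∑ i ∈ Finset.range (φ.natDegree + 1), φ.coeff i • (T * Polynomial.X ^ i))
      from rfl, map_sum, Polynomial.finsetSum_coeff]
  refine Finset.sum_congr rfl fun k _ => ?_
  rw [map_smul, Polynomial.coeff_smul, smul_eq_mul]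
  rfl

private theorem GNa_lin {N : ℕ} (x z : Vx N) (G : Sx N) (t : ℂ) :
    (lin z x G).eval t = eval (z + t • x) G := by
  have h : (Polynomial.evalRingHom t).comp (lin z x).toRingHom = eval (z + t • x) := by
    apply MvPolynomial.ringHom_ext
    · intro a
      simp [lin]
    · intro i
      simp [lin]
      ring
  exact congrArg (fun f : Sx N →+* ℂ => f G) h

theorem tGNa : S_Null → S_Cr → S_GTx → S_GDb → S_GQk → S_GNa := by
  intro hNull hCr hTx hDb hQk N c I hIp hIh hS x L J hJp hJh hline F hF y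
  obtain ⟨hmon, -, -, hdt, -⟩ := hDb N c I x L
  -- the Cramer field
  have hcr := (hCr N c I hIp hIh hS x L).1 y.2 F hF
  set G : Sx N := ∑ i, pderiv i F * L.cr y.2 i with hG
  have hG1 : ∑ b, L.coef b y.2 * pderiv (L.B b) F = L.dt * pderiv y.2 F - G := by
    have h1 : G = pderiv y.2 F * L.dt - ∑ b, pderiv (L.B b) F * L.coef b y.2 := by
      rw [hG]
      unfold Loc.cr
      simp_rw [mul_sub, Finset.sum_sub_distrib, mul_ite, mul_zero, Finset.mul_sum, mul_ite, mul_zero]
      rw [Finset.sum_ite_eq', Finset.sum_comm]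
      simp only [Finset.mem_univ, if_true, Finset.sum_ite_eq]
    rw [h1, mul_comm (pderiv y.2 F) L.dt, sub_sub_cancel]
    exact Finset.sum_congr rfl fun b _ => mul_comm _ _
  -- the left side
  have h2 : ∑ u, L.mm y u * L.nF F u =
      ((tx x (∑ b, L.coef b y.2 * pderiv (L.B b) F)) %ₘ L.Db).coeff y.1 := by
    rw [Fintype.sum_sum_type]
    have h3 : ∀ b, L.mm y (Sum.inl b) * L.nF F (Sum.inl b) +
        ∑ k ∈ Finset.range ((tx x (pderiv (L.B b) F)).natDegree),
          (tx x (pderiv (L.B b) F)).coeff (k + 1) * L.qk b (k + 1) y =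
        ((tx x (L.coef b y.2) * tx x (pderiv (L.B b) F)) %ₘ L.Db).coeff y.1 := by
      intro b
      rw [← GNa_sum, Finset.sum_range_succ', add_comm]
      congr 1
      rw [(hQk N c I x L b 0).2.2.1 y, (hTx N x (pderiv (L.B b) F)).2.1, mul_comm]
      rfl
    have h4 : ∑ y', L.mm y (Sum.inr y') * L.nF F (Sum.inr y') =
        ∑ b, ∑ k ∈ Finset.range ((tx x (pderiv (L.B b) F)).natDegree),
          (tx x (pderiv (L.B b) F)).coeff (k + 1) * L.qk b (k + 1) y := by
      have h5 : ∀ y', L.mm y (Sum.inr y') * L.nF F (Sum.inr y') =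
          ∑ b, ∑ k ∈ Finset.range ((tx x (pderiv (L.B b) F)).natDegree),
            (tx x (pderiv (L.B b) F)).coeff (k + 1) * (L.mm y (Sum.inr y') * L.qk b k y') := by
        intro y'
        show L.mm y (Sum.inr y') * (∑ b, ∑ k ∈ Finset.range ((tx x (pderiv (L.B b) F)).natDegree),
          (tx x (pderiv (L.B b) F)).coeff (k + 1) * L.qk b k y') = _
        rw [Finset.mul_sum]
        refine Finset.sum_congr rfl fun b _ => ?_
        rw [Finset.mul_sum]
        refine Finset.sum_congr rfl fun k _ => ?_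
        ring
      rw [Finset.sum_congr rfl fun y' _ => h5 y', Finset.sum_comm]
      refine Finset.sum_congr rfl fun b _ => ?_
      rw [Finset.sum_comm]
      refine Finset.sum_congr rfl fun k _ => ?_
      rw [← Finset.mul_sum, (hQk N c I x L b k).2.2.2 y]
    rw [h4, ← Finset.sum_add_distrib, Finset.sum_congr rfl fun b _ => h3 b,
      ← Polynomial.finsetSum_coeff, map_sum]
    congr 1
    rw [show (∑ b, tx x (L.coef b y.2 * pderiv (L.B b) F)) %ₘ L.Db =
      Polynomial.modByMonicHom L.Db (∑ b, tx x (L.coef b y.2 * pderiv (L.B b) F)) from rfl, map_sum]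
    refine Finset.sum_congr rfl fun b _ => ?_
    rw [map_mul]
    rfl
  -- the coefficients of `tx x G`
  have h6 : ∀ k, (tx x G).coeff k ∈ J := by
    intro k
    apply (hNull N J hJp hJh).1
    intro z hz
    have h7 : lin z x G = 0 := by
      apply Polynomial.funext
      intro t
      rw [GNa_lin, Polynomial.eval_zero]
      have h8 := hline z hz t 1
      rw [one_smul, add_comm] at h8
      exact h8 G hcr
    have h9 := (hTx N x G).1 z
    rw [h7] at h9
    have h10 := congrArg (fun p : Polynomial ℂ => p.coeff k) h9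
    simp only [Polynomial.coeff_map, Polynomial.coeff_zero] at h10
    exact h10
  have h11 : (tx x G).map (Ideal.Quotient.mk J) = 0 := by
    ext k
    rw [Polynomial.coeff_map, Ideal.Quotient.eq_zero_iff_mem.mpr (h6 k), Polynomial.coeff_zero]
  have h12 : ((tx x G) %ₘ L.Db).coeff y.1 ∈ J := by
    rw [← Ideal.Quotient.eq_zero_iff_mem, ← Polynomial.coeff_map, Polynomial.map_modByMonic _ hmon, h11,
      Polynomial.zero_modByMonic, Polynomial.coeff_zero]
  have h13 : ((tx x (L.dt * pderiv y.2 F)) %ₘ L.Db) = 0 := by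
    rw [(Polynomial.modByMonic_eq_zero_iff_dvd hmon), map_mul, hdt]
    exact ⟨Polynomial.C (C (eval x L.dt)) * tx x (pderiv y.2 F), by ring⟩
  rw [h2, hG1, map_sub, Polynomial.sub_modByMonic, h13, zero_sub, Polynomial.coeff_neg]
  exact J.neg_mem h12

end Pool.Agent.Lib.MP_776403_ag.SD
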