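import Pool.Agent.Lib.MP_776403_ag.SD.WG.Spec

/-!
# THEOREM W, part GEO (helper61): the vectors `q i k`
-/

set_option autoImplicit false

open MvPolynomial

noncomputable section

namespace Pool.Agent.Lib.MP_776403_ag.SD

/-- Multiplication by `X` modulo a monic polynomial. -/
private theorem mul_X_mod {R : Type*} [CommRing R] [Nontrivial R] (D p : Polynomial R)
    (hD : D.Monic) (g l : ℕ) (hg : D.natDegree = g) (hg0 : 0 < g) :
    ((p * Polynomial.X) %ₘ D).coeff l =
      ∑ j : Fin g, ((Polynomial.X ^ ((j : ℕ) + 1) : Polynomial R) %ₘ D).coeff l *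
        (p %ₘ D).coeff j := by
  have h1 : D ≠ 1 := by
    intro h
    rw [h, Polynomial.natDegree_one] at hg
    omega
  have h2 : (p %ₘ D).natDegree < g := by
    rw [← hg]
    exact Polynomial.natDegree_modByMonic_lt p hD h1
  have h3 : (p * Polynomial.X) %ₘ D = ((p %ₘ D) * Polynomial.X) %ₘ D := by
    conv_lhs => rw [← Polynomial.modByMonic_add_div p D]
    rw [add_mul, Polynomial.add_modByMonic, mul_assoc, Polynomial.self_mul_modByMonic hD,
      add_zero]
  have h4 : (p %ₘ D) * Polynomial.X =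
      ∑ j ∈ Finset.range g, (p %ₘ D).coeff j • (Polynomial.X ^ (j + 1) : Polynomial R) := by
    conv_lhs => rw [Polynomial.as_sum_range' (p %ₘ D) g h2]
    rw [Finset.sum_mul]
    refine Finset.sum_congr rfl fun j _ => ?_
    rw [← Polynomial.C_mul_X_pow_eq_monomial, mul_assoc, ← pow_succ, Polynomial.smul_eq_C_mul]
  have h5 : ((p %ₘ D) * Polynomial.X) %ₘ D =
      ∑ j ∈ Finset.range g, (p %ₘ D).coeff j • ((Polynomial.X ^ (j + 1) : Polynomial R) %ₘ D) := by
    rw [h4]
    have h6 := map_sum (Polynomial.modByMonicHom D)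
      (fun j => (p %ₘ D).coeff j • (Polynomial.X ^ (j + 1) : Polynomial R)) (Finset.range g)
    simp only [map_smul] at h6
    exact h6
  rw [h3, h5, Polynomial.finsetSum_coeff, Finset.sum_range]
  refine Finset.sum_congr rfl fun j _ => ?_
  rw [Polynomial.coeff_smul, smul_eq_mul, mul_comm]

/-- (GQk) The vectors `q i k`. -/
theorem tGQk : S_Hom → S_GTx → S_GMod → S_GDb → S_GQk := by
  intro hHom hTx hMod hDb N c I x L i k
  obtain ⟨hmon, hdeg, hHg, _, _⟩ := hDb N c I x L
  refine ⟨fun z => ?_, fun y => ?_, fun y => rfl, fun y => ?_⟩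
  · funext y
    change (((∑ b, lin z x (L.coef b y.2) *
      (Pi.single i (Polynomial.X ^ k) : Fin c → Polynomial ℂ) b) %ₘ
        (L.Db.map (eval z))).coeff y.1) =
      eval z (((tx x (L.coef i y.2) * Polynomial.X ^ k) %ₘ L.Db).coeff y.1)
    rw [← Polynomial.coeff_map, Polynomial.map_modByMonic _ hmon, Polynomial.map_mul,
      Polynomial.map_pow, Polynomial.map_X, (hTx N x _).1 z, Finset.sum_eq_single i]
    · rw [Pi.single_eq_same]
    · intro b _ hb
      rw [Pi.single_eq_of_ne hb, mul_zero]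
    · intro h
      exact absurd (Finset.mem_univ i) h
  · have h0 := (hHom N c I x 0 L).2.1 i y.2
    have h1 : Hg L.dg (tx x (L.coef i y.2)) := ((hTx N x _).2.2 _ h0).1
    have h2 := (hMod N).1 _ _ _ _ h1 ((hMod N).2.2.1 k)
    have h3 := (hMod N).2.2.2.2 L.Db L.dg hmon hdeg hHg _ _ h2
    have hy := y.1.2
    have h4 := (h3 y.1).1 (by omega)
    have h5 : k + 1 + (L.dg - 1 - y.1) = L.dg + k - y.1 := by omega
    rw [h5]
    exact h4
  · have hy := y.1.2
    have h1 := mul_X_mod L.Db (tx x (L.coef i y.2) * Polynomial.X ^ k) hmon L.dg y.1 hdeg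
      (by omega)
    have h2 : L.qk i (k + 1) y =
        ((tx x (L.coef i y.2) * Polynomial.X ^ k * Polynomial.X) %ₘ L.Db).coeff y.1 := by
      unfold Loc.qk
      rw [pow_succ, mul_assoc]
    rw [h2, h1, Fintype.sum_prod_type]
    refine Finset.sum_congr rfl fun j _ => ?_
    rw [Finset.sum_eq_single y.2]
    · change (if y.2 = y.2 then (((Polynomial.X ^ ((j : ℕ) + 1) : Polynomial (Sx N)) %ₘ
        L.Db).coeff y.1) else 0) * _ = _
      rw [if_pos rfl]
      rfl
    · intro b _ hb
      change (if b = y.2 then (((Polynomial.X ^ ((j : ℕ) + 1) : Polynomial (Sx N)) %ₘ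
        L.Db).coeff y.1) else 0) * _ = _
      rw [if_neg hb, zero_mul]
    · intro h
      exact absurd (Finset.mem_univ _) h

end Pool.Agent.Lib.MP_776403_ag.SD
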