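import Pool.Agent.Lib.MP_776403_ag.SD.WG.Spec

/-! # THEOREM W, part GEO, module GRk: the rank of the matrix of the vectors `q i k` -/

set_option autoImplicit false

open MvPolynomial

noncomputable section

namespace Pool.Agent.Lib.MP_776403_ag.SD

theorem tGRk : S_GQk → S_GSat → S_GCol → S_GRk := by
  intro hQ hS hC N c a I hI hhom hsm x z hxz hm L
  have hC' := (hC N c a I hI hhom hsm x z hxz hm L).2
  have hq : ∀ (i : Fin c) (k : ℕ), L.kap z (Pi.single i (Polynomial.X ^ k)) =
      fun y => eval z (L.qk i k y) := fun i k => (hQ N c I x L i k).1 z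
  set S : Submodule ℂ (L.Ix → ℂ) := Submodule.span ℂ (Set.range fun ik : Fin c × ℕ =>
    fun y : L.Ix => eval z (L.qk ik.1 ik.2 y)) with hSdef
  have h1 : ∀ (i : Fin c) (p : Polynomial ℂ), L.kap z (Pi.single i p) ∈ S := by
    intro i p
    have h2 : (Pi.single i p : Fin c → Polynomial ℂ) =
        ∑ k ∈ Finset.range (p.natDegree + 1), p.coeff k • Pi.single i (Polynomial.X ^ k) := by
      conv_lhs => rw [p.as_sum_range_C_mul_X_pow]
      funext j
      rw [Finset.sum_apply]
      by_cases hj : j = i
      · subst hj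
        rw [Pi.single_eq_same]
        refine Finset.sum_congr rfl fun k _ => ?_
        rw [Pi.smul_apply, Pi.single_eq_same, Polynomial.smul_eq_C_mul]
      · rw [Pi.single_eq_of_ne hj]
        refine (Finset.sum_eq_zero fun k _ => ?_).symm
        rw [Pi.smul_apply, Pi.single_eq_of_ne hj, smul_zero]
    rw [h2, map_sum]
    refine Submodule.sum_mem _ fun k _ => ?_
    rw [map_smul, hq]
    exact Submodule.smul_mem _ _ (Submodule.subset_span ⟨(i, k), rfl⟩)
  have h3 : LinearMap.range (L.kap z) = S := by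
    refine le_antisymm ?_ (Submodule.span_le.2 ?_)
    · rintro _ ⟨f, rfl⟩
      have h4 : f = ∑ i, Pi.single i (f i) := (Finset.univ_sum_single f).symm
      rw [h4, map_sum]
      exact Submodule.sum_mem _ fun i _ => h1 i _
    · rintro _ ⟨ik, rfl⟩
      exact ⟨_, hq ik.1 ik.2⟩
  have h5 : LinearMap.ker (L.kap z) = (L.EZ z).restrictScalars ℂ := by
    ext f
    rw [LinearMap.mem_ker, Submodule.restrictScalars_mem]
    exact hS N c I hI hhom hsm x z hxz L f
  have h6 : Module.finrank ℂ (LinearMap.range (L.kap z)) =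
      Module.finrank ℂ ((Fin c → Polynomial ℂ) ⧸ L.EZ z) := by
    rw [← (L.kap z).quotKerEquivRange.finrank_eq, h5]
    exact (Submodule.Quotient.restrictScalarsEquiv ℂ (L.EZ z)).finrank_eq
  rw [h3] at h6
  rw [h6]
  exact hC'

end Pool.Agent.Lib.MP_776403_ag.SD
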