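import Pool.Agent.Lib.MP_776403_ag.SD.WG.Spec
import Pool.Agent.Lib.MP_776403_ag.SD.E.Cr

/-!
# THEOREM W, part GEO: the kernel of `κ_z` is the module of the gradients
-/

set_option autoImplicit false

open MvPolynomial

noncomputable section

namespace Pool.Agent.Lib.MP_776403_ag.SD

namespace GSatAux

variable {N c : ℕ} {I : Ideal (Sx N)} {x : Vx N}

/-- `κ_z(f) = 0` iff `D` divides all coordinates. -/
theorem kap_iff (hDb : S_GDb) (L : Loc I x c) (z : Vx N) (f : Fin c → Polynomial ℂ) :
    L.kap z f = 0 ↔ ∀ j, lin z x L.dt ∣ ∑ b, lin z x (L.coef b j) * f b := by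
  obtain ⟨hm, hd, -, -, hz⟩ := hDb N c I x L
  have hE := hz z
  set E := L.Db.map (eval z) with hEd
  have hEm : E.Monic := hm.map _
  have hEn : E.natDegree = L.dg := by
    rw [hEd, hm.natDegree_map, hd]
  have hx : (eval x L.dt) ≠ 0 := L.detx
  have hdvd : ∀ p : Polynomial ℂ, lin z x L.dt ∣ p ↔ E ∣ p := by
    intro p
    have hu : IsUnit (Polynomial.C (eval x L.dt)⁻¹ : Polynomial ℂ) :=
      Polynomial.isUnit_C.2 (IsUnit.mk0 _ (inv_ne_zero hx))
    rw [hE, hu.mul_left_dvd]
  have hrem : ∀ p : Polynomial ℂ, (∀ l : Fin L.dg, (p %ₘ E).coeff l = 0) ↔ E ∣ p := by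
    intro p
    rw [← Polynomial.modByMonic_eq_zero_iff_dvd hEm]
    constructor
    · intro h
      ext l
      rw [Polynomial.coeff_zero]
      by_cases hl : l < L.dg
      · exact h ⟨l, hl⟩
      · by_cases h0 : E = 1
        · rw [h0, Polynomial.modByMonic_one, Polynomial.coeff_zero]
        · refine Polynomial.coeff_eq_zero_of_natDegree_lt ?_
          have := Polynomial.natDegree_modByMonic_lt p hEm h0
          omega
    · intro h l
      rw [h, Polynomial.coeff_zero]
  constructor
  · intro h j
    rw [hdvd, ← hrem]
    intro l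
    exact congrFun h (l, j)
  · intro h
    funext y
    exact (hrem _).2 ((hdvd _).1 (h y.2)) y.1

/-- Cramer's rule for `lin z x`, `L` at the point `x`. -/
theorem cramer (hCr : S_Cr) (hLinB : S_LinB) (hI : I.IsPrime) (hIh : IsHom I) (hS : Smooth I c)
    (L : Loc I x c) (z : Vx N) (hl : ∀ s t : ℂ, s • x + t • z ∈ zer I) (F : Sx N) (hF : F ∈ I)
    (j : Fin (N + 1)) : lin z x L.dt * lin z x (pderiv j F) =
      ∑ b, lin z x (L.coef b j) * lin z x (pderiv (L.B b) F) := by
  have h1 := (hCr N c I hI hIh hS x L).1 j F hF
  rw [CrAux.sum_cr] at h1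
  have h2 := (hLinB N z x (CrAux.EE L j F)).2.2 I (fun s t => by
    rw [add_comm]; exact hl t s) h1
  unfold CrAux.EE at h2
  rw [map_sub, map_mul, map_sum, sub_eq_zero] at h2
  rw [h2]
  exact Finset.sum_congr rfl fun b _ => map_mul _ _ _

/-- The vectors `g` such that `D` divides `∑ m_b g_b`. -/
def KD {c : ℕ} (D : Polynomial ℂ) (m : Fin c → Polynomial ℂ) :
    Submodule (Polynomial ℂ) (Fin c → Polynomial ℂ) where
  carrier := {g | D ∣ ∑ b, m b * g b}
  zero_mem' := by
    simp only [Set.mem_ofPred_eq, Pi.zero_apply, mul_zero, Finset.sum_const_zero]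
    exact dvd_zero _
  add_mem' := by
    intro g g' hg hg'
    simp only [Set.mem_ofPred_eq, Pi.add_apply, mul_add, Finset.sum_add_distrib] at hg hg' ⊢
    exact dvd_add hg hg'
  smul_mem' := by
    intro r g hg
    simp only [Set.mem_ofPred_eq, Pi.smul_apply, smul_eq_mul] at hg ⊢
    have h1 : ∑ b, m b * (r * g b) = r * ∑ b, m b * g b := by
      rw [Finset.mul_sum]
      exact Finset.sum_congr rfl fun b _ => by ring
    rw [h1]
    exact Dvd.dvd.mul_left hg r

end GSatAux

open GSatAux

theorem tGSat : S_Hom → S_LinB → S_Loc → S_Cr → S_CrL → S_GDb → S_GSat := by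
  intro hHom hLinB hLoc hCr hCrL hDb N c I hI hIh hS x z hline L f
  have hl : ∀ s t : ℂ, s • x + t • z ∈ zer I := hline.2
  have hl' : ∀ s t : ℂ, s • z + t • x ∈ zer I := fun s t => by rw [add_comm]; exact hl t s
  have hD : lin z x L.dt ≠ 0 := by
    intro h
    have h1 := ((hLinB N z x L.dt).2.1 L.dg (hHom N c I x z L).1).2.1
    rw [h, Polynomial.coeff_zero] at h1
    exact L.detx h1.symm
  rw [kap_iff hDb]
  set D := lin z x L.dt with hDd
  constructor
  · intro h
    choose n hn using h
    set u : Fin c → Polynomial ℂ := fun i => ∑ b, lin z x (L.M.adjugate b i) * f b with hu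
    have hsum : ∀ j, D * n j = ∑ i, u i * lin z x (pderiv j (L.F i)) := by
      intro j
      rw [← hn j]
      simp only [hu, Finset.sum_mul]
      rw [Finset.sum_comm]
      refine Finset.sum_congr rfl fun b _ => ?_
      rw [Loc.coef, map_sum, Finset.sum_mul]
      refine Finset.sum_congr rfl fun i _ => ?_
      rw [map_mul]
      ring
    have hnB : ∀ b, n (L.B b) = f b := by
      intro b
      refine mul_left_cancel₀ hD ?_
      rw [hsum]
      simp only [hu, Finset.sum_mul]
      rw [Finset.sum_comm]
      have h1 : ∀ b', ∑ i, lin z x (L.M.adjugate b' i) * f b' * lin z x (pderiv (L.B b) (L.F i)) =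
          (if b' = b then D else 0) * f b' := by
        intro b'
        have h2 := congrArg (lin z x) (CrLAux.adj_M L b' b)
        rw [map_sum] at h2
        have h3 : lin z x (if b' = b then L.dt else 0) = if b' = b then D else 0 := by
          split_ifs
          · rfl
          · exact map_zero _
        rw [← h3, ← h2, Finset.sum_mul]
        refine Finset.sum_congr rfl fun i _ => ?_
        rw [map_mul]
        ring
      rw [Finset.sum_congr rfl fun b' _ => h1 b', Finset.sum_eq_single b]
      · rw [if_pos rfl]
      · intro b' _ hb'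
        rw [if_neg hb', zero_mul]
      · intro hb
        exact absurd (Finset.mem_univ b) hb
    -- the ideal of the `s` with `s f ∈ EZ`
    set T : Ideal (Polynomial ℂ) := Submodule.comap
      (LinearMap.toSpanSingleton (Polynomial ℂ) (Fin c → Polynomial ℂ) f) (L.EZ z) with hT
    have hTmem : ∀ s, s ∈ T ↔ s • f ∈ L.EZ z := fun s => Iff.rfl
    have hloc : ∀ t0 : ℂ, ∃ s ∈ T, s.eval t0 ≠ 0 := by
      intro t0
      have hy0 : z + t0 • x ≠ 0 := by
        intro h0
        have h1 := LinearIndependent.pair_iff.1 hline.1 t0 1 (by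
          rw [one_smul, add_comm]; exact h0)
        exact one_ne_zero h1.2
      have hyI : z + t0 • x ∈ zer I := by
        have := hl' 1 t0
        rwa [one_smul] at this
      obtain ⟨L'⟩ := hLoc N c I hS _ hyI hy0
      obtain ⟨-, -, hC, -⟩ := hCrL N c I z x _ t0 L' rfl hl'
      refine ⟨lin z x L'.dt, ?_, ?_⟩
      · rw [hTmem]
        have key : ∀ j, lin z x L'.dt * n j = ∑ i', (∑ b', lin z x (L'.M.adjugate b' i') *
            n (L'.B b')) * lin z x (pderiv j (L'.F i')) := by
          intro j
          refine mul_left_cancel₀ hD ?_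
          calc D * (lin z x L'.dt * n j) = lin z x L'.dt * (D * n j) := by ring
            _ = ∑ i, u i * (lin z x L'.dt * lin z x (pderiv j (L.F i))) := by
                rw [hsum, Finset.mul_sum]
                exact Finset.sum_congr rfl fun i _ => by ring
            _ = ∑ i, u i * ∑ b', lin z x (L'.coef b' j) * lin z x (pderiv (L'.B b') (L.F i)) := by
                refine Finset.sum_congr rfl fun i _ => ?_
                rw [hC _ (L.memF i)]
            _ = ∑ b', lin z x (L'.coef b' j) * (D * n (L'.B b')) := by
                simp only [Finset.mul_sum, hsum]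
                rw [Finset.sum_comm]
                exact Finset.sum_congr rfl fun b' _ => Finset.sum_congr rfl fun i _ => by ring
            _ = ∑ b', ∑ i', lin z x (L'.M.adjugate b' i') * lin z x (pderiv j (L'.F i')) *
                  (D * n (L'.B b')) := by
                refine Finset.sum_congr rfl fun b' _ => ?_
                rw [Loc.coef, map_sum, Finset.sum_mul]
                exact Finset.sum_congr rfl fun i' _ => by rw [map_mul]
            _ = _ := by
                rw [Finset.sum_comm, Finset.mul_sum]
                refine Finset.sum_congr rfl fun i' _ => ?_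
                rw [Finset.sum_mul, Finset.mul_sum]
                exact Finset.sum_congr rfl fun b' _ => by ring
        have h1 : lin z x L'.dt • f = ∑ i', (∑ b', lin z x (L'.M.adjugate b' i') *
            n (L'.B b')) • fun b => lin z x (pderiv (L.B b) (L'.F i')) := by
          funext b
          rw [Pi.smul_apply, smul_eq_mul, ← hnB b, key, Finset.sum_apply]
          rfl
        rw [h1]
        exact Submodule.sum_mem _ fun i' _ => Submodule.smul_mem _ _
          (Submodule.subset_span ⟨L'.F i', L'.memF i', rfl⟩)
      · rw [(hLinB N z x L'.dt).1 t0]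
        exact L'.detx
    have hone : (1 : Polynomial ℂ) ∈ T := by
      set g := Submodule.IsPrincipal.generator T with hg
      have hTg : T = Ideal.span {g} := (Ideal.span_singleton_generator T).symm
      have hdeg : g.degree = 0 := by
        by_contra hne
        obtain ⟨t0, ht0⟩ := IsAlgClosed.exists_root g hne
        obtain ⟨s, hs, hs0⟩ := hloc t0
        rw [hTg, Ideal.mem_span_singleton] at hs
        obtain ⟨r, rfl⟩ := hs
        rw [Polynomial.eval_mul, ht0, zero_mul] at hs0
        exact hs0 rfl
      have hug : IsUnit g := Polynomial.isUnit_iff_degree_eq_zero.2 hdeg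
      rw [hTg, Ideal.span_singleton_eq_top.2 hug]
      exact Submodule.mem_top
    rw [hTmem, one_smul] at hone
    exact hone
  · intro h j
    have h1 : L.EZ z ≤ KD D (fun b => lin z x (L.coef b j)) := by
      unfold Loc.EZ
      refine Submodule.span_le.2 ?_
      rintro _ ⟨F, hF, rfl⟩
      have h2 := cramer hCr hLinB hI hIh hS L z hl F hF j
      exact Dvd.intro _ h2
    exact h1 h

end Pool.Agent.Lib.MP_776403_ag.SD
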