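import Pool.Agent.Lib.MP_776403_ag.SD.WG.Spec

/-!
# THEOREM W, part GEO, module GTx: F(X + s x) as a polynomial in s
-/

set_option autoImplicit false

open MvPolynomial

noncomputable section

namespace Pool.Agent.Lib.MP_776403_ag.SD

variable {N : ℕ}

private lemma hg_natDegree {n : ℕ} {p : Polynomial (Sx N)} (h : Hg n p) : p.natDegree ≤ n := by
  rw [Polynomial.natDegree_le_iff_coeff_eq_zero]
  intro l hl
  exact (h l).2 hl

private lemma hg_mul {m n : ℕ} {p q : Polynomial (Sx N)} (hp : Hg m p) (hq : Hg n q) :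
    Hg (m + n) (p * q) := by
  intro l
  refine ⟨fun hl => ?_, fun hl => ?_⟩
  · rw [Polynomial.coeff_mul]
    refine IsHomogeneous.sum _ _ _ fun ij hij => ?_
    rw [Finset.HasAntidiagonal.mem_antidiagonal] at hij
    by_cases h1 : ij.1 ≤ m
    · by_cases h2 : ij.2 ≤ n
      · have h3 := ((hp ij.1).1 h1).mul ((hq ij.2).1 h2)
        have h4 : m - ij.1 + (n - ij.2) = m + n - l := by omega
        rw [h4] at h3
        exact h3
      · rw [(hq ij.2).2 (by omega), mul_zero]
        exact isHomogeneous_zero _ _ _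
    · rw [(hp ij.1).2 (by omega), zero_mul]
      exact isHomogeneous_zero _ _ _
  · rw [Polynomial.coeff_mul]
    refine Finset.sum_eq_zero fun ij hij => ?_
    rw [Finset.HasAntidiagonal.mem_antidiagonal] at hij
    by_cases h1 : ij.1 ≤ m
    · rw [(hq ij.2).2 (by omega), mul_zero]
    · rw [(hp ij.1).2 (by omega), zero_mul]

/-- `F` has the property (3) in degree `n`. -/
private def Pr (x : Vx N) (n : ℕ) (F : Sx N) : Prop :=
  Hg n (tx x F) ∧ (tx x F).coeff n = C (eval x F)

private lemma pr_mul {x : Vx N} {m n : ℕ} {F G : Sx N} (hF : Pr x m F) (hG : Pr x n G) :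
    Pr x (m + n) (F * G) := by
  refine ⟨?_, ?_⟩
  · rw [map_mul]
    exact hg_mul hF.1 hG.1
  · rw [map_mul, Polynomial.coeff_mul_add_eq_of_natDegree_le (hg_natDegree hF.1) (hg_natDegree hG.1),
      hF.2, hG.2, map_mul, map_mul]

private lemma tx_C (x : Vx N) (a : ℂ) : tx x (C a) = Polynomial.C (C a) := by
  unfold tx
  rw [aeval_C]
  rfl

private lemma tx_X (x : Vx N) (i : Fin (N + 1)) :
    tx x (X i) = Polynomial.C (X i) + Polynomial.C (C (x i)) * Polynomial.X := by
  unfold tx
  rw [aeval_X]

private lemma pr_C (x : Vx N) (a : ℂ) : Pr x 0 (C a) := by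
  refine ⟨fun l => ⟨fun hl => ?_, fun hl => ?_⟩, ?_⟩
  · have h0 : l = 0 := by omega
    subst h0
    rw [tx_C, Polynomial.coeff_C_zero]
    exact isHomogeneous_C _ _
  · rw [tx_C, Polynomial.coeff_C, if_neg (by omega)]
  · rw [tx_C, Polynomial.coeff_C_zero, eval_C]

private lemma pr_X (x : Vx N) (i : Fin (N + 1)) : Pr x 1 (X i) := by
  refine ⟨fun l => ⟨fun hl => ?_, fun hl => ?_⟩, ?_⟩
  · rw [tx_X, Polynomial.coeff_add, Polynomial.coeff_C_mul, Polynomial.coeff_C, Polynomial.coeff_X]
    rcases Nat.lt_or_ge l 1 with h | h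
    · have h0 : l = 0 := by omega
      subst h0
      rw [if_pos rfl, if_neg (by omega), mul_zero, add_zero]
      exact isHomogeneous_X _ _
    · have h0 : l = 1 := by omega
      subst h0
      rw [if_neg (by omega), if_pos rfl, mul_one, zero_add]
      exact isHomogeneous_C _ _
  · rw [tx_X, Polynomial.coeff_add, Polynomial.coeff_C_mul, Polynomial.coeff_C, Polynomial.coeff_X,
      if_neg (by omega), if_neg (by omega), mul_zero, add_zero]
  · rw [tx_X, Polynomial.coeff_add, Polynomial.coeff_C_mul, Polynomial.coeff_C, Polynomial.coeff_X,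
      if_neg (by omega), if_pos rfl, mul_one, zero_add, eval_X]

private lemma pr_pow {x : Vx N} {m : ℕ} {F : Sx N} (hF : Pr x m F) (k : ℕ) :
    Pr x (m * k) (F ^ k) := by
  induction k with
  | zero =>
    rw [mul_zero, pow_zero]
    have h := pr_C x 1
    rw [map_one] at h
    exact h
  | succ k ih =>
    rw [pow_succ, mul_add, mul_one]
    exact pr_mul ih hF

private lemma pr_prod {x : Vx N} (s : Finset (Fin (N + 1))) (d : Fin (N + 1) → ℕ) :
    Pr x (∑ i ∈ s, d i) (∏ i ∈ s, (X i : Sx N) ^ d i) := by
  classical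
  induction s using Finset.induction_on with
  | empty =>
    rw [Finset.sum_empty, Finset.prod_empty]
    have h := pr_C x 1
    rw [map_one] at h
    exact h
  | insert a s ha ih =>
    rw [Finset.sum_insert ha, Finset.prod_insert ha]
    have h := pr_pow (pr_X x a) (d a)
    rw [one_mul] at h
    exact pr_mul h ih

private lemma pr_monomial {x : Vx N} (d : Fin (N + 1) →₀ ℕ) (a : ℂ) :
    Pr x (∑ i ∈ d.support, d i) (monomial d a) := by
  rw [monomial_eq]
  have h := pr_mul (pr_C x a) (pr_prod (x := x) d.support d)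
  rw [zero_add] at h
  exact h

private lemma pr_sum {x : Vx N} {n : ℕ} {ι : Type} (s : Finset ι) (F : ι → Sx N)
    (h : ∀ i ∈ s, Pr x n (F i)) : Pr x n (∑ i ∈ s, F i) := by
  refine ⟨fun l => ⟨fun hl => ?_, fun hl => ?_⟩, ?_⟩
  · rw [map_sum, Polynomial.finset_sum_coeff]
    exact IsHomogeneous.sum _ _ _ fun i hi => ((h i hi).1 l).1 hl
  · rw [map_sum, Polynomial.finset_sum_coeff]
    exact Finset.sum_eq_zero fun i hi => ((h i hi).1 l).2 hl
  · rw [map_sum, Polynomial.finset_sum_coeff, map_sum, map_sum]
    exact Finset.sum_congr rfl fun i hi => (h i hi).2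

theorem tGTx : S_GTx := by
  intro N x F
  refine ⟨fun z => ?_, ?_, fun f hF => ?_⟩
  · have h : (Polynomial.mapRingHom (eval z)).comp (tx x).toRingHom =
        (lin z x).toRingHom := by
      apply MvPolynomial.ringHom_ext
      · intro a
        show Polynomial.map (eval z) (tx x (C a)) = lin z x (C a)
        rw [tx_C, Polynomial.map_C, eval_C]
        unfold lin
        rw [aeval_C]
        rfl
      · intro i
        show Polynomial.map (eval z) (tx x (X i)) = lin z x (X i)
        rw [tx_X]
        unfold lin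
        rw [aeval_X, Polynomial.map_add, Polynomial.map_mul, Polynomial.map_C, Polynomial.map_C,
          Polynomial.map_X, eval_C, eval_X]
    exact RingHom.congr_fun h F
  · have h : (Polynomial.constantCoeff).comp (tx x).toRingHom = RingHom.id (Sx N) := by
      apply MvPolynomial.ringHom_ext
      · intro a
        show (tx x (C a)).coeff 0 = C a
        rw [tx_C, Polynomial.coeff_C_zero]
      · intro i
        show (tx x (X i)).coeff 0 = X i
        rw [tx_X, Polynomial.coeff_add, Polynomial.coeff_C_mul, Polynomial.coeff_C_zero,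
          Polynomial.coeff_X_zero, mul_zero, add_zero]
    exact RingHom.congr_fun h F
  · have h1 : Pr x f F := by
      rw [F.as_sum]
      refine pr_sum _ _ fun d hd => ?_
      have h2 := hF (mem_support_iff.mp hd)
      have h3 : ∑ i ∈ d.support, d i = f := by
        rw [← h2]
        exact congrArg (fun g : (Fin (N + 1) →₀ ℕ) →+ ℕ => g d)
          (Finsupp.degree_eq_weight_one (σ := Fin (N + 1)) (R := ℕ))
      rw [← h3]
      exact pr_monomial d _
    exact h1

end Pool.Agent.Lib.MP_776403_ag.SD
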