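import Pool.Agent.Lib.MP_776403_ag.SD.J.Spec

/-!
# THEOREM W, part GEO: definitions

`X = V(I)` smooth of codimension `c`, `x ∈ X^`, `L : Loc I x c` local equations at `x`,
`Δ = L.dt` a form of degree `g = L.dg`, `Δ(x) ≠ 0`.  Chart `z + σ x` (`σ = ∞` is the point `x`).

* `tx x F = F(X + σ x)`;
* `L.Db = Δ(X + σ x) / Δ(x)`, monic of degree `g` in `σ`;
* `L.qk i k ∈ S^(g × (N+1))`: the coefficients of the `σ^k coef_(i j)(X + σ x) mod Db`;
* `L.mm`: the matrix of `(f, q) ↦ κ(f) + σ q`; `L.psi`: the constant matrix which recovers the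
  gradient.
-/

set_option autoImplicit false

open MvPolynomial

noncomputable section

namespace Pool.Agent.Lib.MP_776403_ag.SD

variable {N : ℕ}

/-- `F(X + σ x)`, a polynomial in `σ`. -/
def tx (x : Vx N) : Sx N →ₐ[ℂ] Polynomial (Sx N) :=
  aeval fun i => Polynomial.C (X i) + Polynomial.C (C (x i)) * Polynomial.X

/-- `p` is homogeneous of degree `n`, if `σ` has degree `1`. -/
def Hg (n : ℕ) (p : Polynomial (Sx N)) : Prop :=
  ∀ l, (l ≤ n → (p.coeff l).IsHomogeneous (n - l)) ∧ (n < l → p.coeff l = 0)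

/-- The `ℂ[σ]`-module generated by the vectors `(∂_(B b) F)(z + σ x)`, `F ∈ I`. -/
def Loc.EZ {I : Ideal (Sx N)} {x : Vx N} {c : ℕ} (L : Loc I x c) (z : Vx N) :
    Submodule (Polynomial ℂ) (Fin c → Polynomial ℂ) :=
  Submodule.span (Polynomial ℂ) {e | ∃ F ∈ I, e = fun b => lin z x (pderiv (L.B b) F)}

variable {I : Ideal (Sx N)} {x : Vx N} {c : ℕ} (L : Loc I x c)

/-- `Δ(X + σ x) / Δ(x)`. -/
def Loc.Db : Polynomial (Sx N) := Polynomial.C (C (eval x L.dt)⁻¹) * tx x L.dt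

/-- The index set of the coefficients. -/
abbrev Loc.Ix : Type := Fin L.dg × Fin (N + 1)

/-- The coefficients of `σ^k coef_(i j)(X + σ x)` modulo `Db`. -/
def Loc.qk (i : Fin c) (k : ℕ) : L.Ix → Sx N :=
  fun y => ((tx x (L.coef i y.2) * Polynomial.X ^ k) %ₘ L.Db).coeff y.1

/-- `(f, q) ↦ κ(f) + σ q`. -/
def Loc.mm : L.Ix → Fin c ⊕ L.Ix → Sx N :=
  fun y => Sum.elim (fun b => L.qk b 0 y)
    fun y' => if y'.2 = y.2 then (((Polynomial.X ^ ((y'.1 : ℕ) + 1) : Polynomial (Sx N)) %ₘ L.Db).coeff y.1) else 0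

/-- The constant matrix `(f, q) ↦ (∑_b coef_(b j)(x) f_b + q_(g-1, j)) / Δ(x)`. -/
def Loc.psi : Fin (N + 1) → Fin c ⊕ L.Ix → ℂ :=
  fun j => Sum.elim (fun b => (eval x L.dt)⁻¹ * eval x (L.coef b j))
    fun y => if (y.1 : ℕ) + 1 = L.dg ∧ y.2 = j then (eval x L.dt)⁻¹ else 0

/-- The vector `n_F`: `(∂_(B b) F, κ((F_b(X + σ x) - F_b) / σ))`, `F_b = ∂_(B b) F`. -/
def Loc.nF (F : Sx N) : Fin c ⊕ L.Ix → Sx N :=
  Sum.elim (fun b => pderiv (L.B b) F)
    fun y => ∑ b, ∑ k ∈ Finset.range ((tx x (pderiv (L.B b) F)).natDegree),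
      (tx x (pderiv (L.B b) F)).coeff (k + 1) * L.qk b k y

/-- `κ_z(f)`, `f ∈ ℂ[σ]^c`. -/
def Loc.kap (z : Vx N) : (Fin c → Polynomial ℂ) →ₗ[ℂ] (L.Ix → ℂ) where
  toFun f := fun y => ((∑ b, lin z x (L.coef b y.2) * f b) %ₘ
    (L.Db.map (eval z))).coeff y.1
  map_add' f f' := by
    funext y
    simp only [Pi.add_apply, mul_add, Finset.sum_add_distrib, Polynomial.add_modByMonic,
      Polynomial.coeff_add]
  map_smul' r f := by
    funext y
    simp only [Pi.smul_apply, mul_smul_comm, ← Finset.smul_sum, Polynomial.smul_modByMonic,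
      Polynomial.coeff_smul, RingHom.id_apply]

end Pool.Agent.Lib.MP_776403_ag.SD
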