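import Pool.Agent.Lib.MP_776403_ag.SD.WG.Spec

/-!
# THEOREM W, part GEO, module GDb: the monic polynomial Delta(X + s x) / Delta(x)
-/

set_option autoImplicit false

open MvPolynomial

noncomputable section

namespace Pool.Agent.Lib.MP_776403_ag.SD

theorem tGDb : S_Hom → S_GTx → S_GDb := by
  intro hHom hTx N c I x L
  obtain ⟨hdt, -⟩ := hHom N c I x x L
  obtain ⟨h1, -, h3⟩ := hTx N x L.dt
  obtain ⟨hg, hc⟩ := h3 L.dg hdt
  have hne : eval x L.dt ≠ 0 := L.detx
  have hcf : ∀ l, L.Db.coeff l = C (eval x L.dt)⁻¹ * (tx x L.dt).coeff l := by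
    intro l
    unfold Loc.Db
    rw [Polynomial.coeff_C_mul]
  have hle : L.Db.natDegree ≤ L.dg := by
    rw [Polynomial.natDegree_le_iff_coeff_eq_zero]
    intro l hl
    rw [hcf, (hg l).2 hl, mul_zero]
  have hone : L.Db.coeff L.dg = 1 := by
    rw [hcf, hc, ← map_mul, inv_mul_cancel₀ hne, map_one]
  refine ⟨Polynomial.monic_of_natDegree_le_of_coeff_eq_one _ hle hone,
    Polynomial.natDegree_eq_of_le_of_coeff_ne_zero hle (by rw [hone]; exact one_ne_zero),
    fun l => ⟨fun hl => ?_, fun hl => ?_⟩, ?_, fun z => ?_⟩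
  · rw [hcf]
    have h := (isHomogeneous_C (Fin (N + 1)) (eval x L.dt)⁻¹).mul ((hg l).1 hl)
    rw [zero_add] at h
    exact h
  · rw [hcf, (hg l).2 hl, mul_zero]
  · unfold Loc.Db
    rw [← mul_assoc, ← Polynomial.C_mul, ← map_mul, mul_inv_cancel₀ hne, map_one, Polynomial.C_1,
      one_mul]
  · unfold Loc.Db
    rw [Polynomial.map_mul, Polynomial.map_C, eval_C, h1]

end Pool.Agent.Lib.MP_776403_ag.SD
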