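import Pool.Agent.Lib.MP_776403_ag.SD.WG.Spec

/-!
# THEOREM W, part GEO: the gradient is recovered by a constant matrix
-/

set_option autoImplicit false

open MvPolynomial

noncomputable section

namespace Pool.Agent.Lib.MP_776403_ag.SD

namespace GNbAux

open Polynomial in
/-- Division by `D`. -/
theorem alg1 {R A : Type} [CommRing R] [CommRing A] (π : R →+* A) (W s r D Q T : Polynomial R)
    (d : R) (hs : s = r + D * Q)
    (h : (W + Polynomial.X * s).map π = (Polynomial.C d * D * T).map π) :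
    (W + Polynomial.X * r).map π = D.map π * (Polynomial.C d * T - Polynomial.X * Q).map π := by
  have h1 : W + Polynomial.X * r = (W + Polynomial.X * s) - D * (Polynomial.X * Q) := by
    rw [hs]; ring
  have h2 : Polynomial.C d * D * T - D * (Polynomial.X * Q) =
      D * (Polynomial.C d * T - Polynomial.X * Q) := by ring
  rw [h1, Polynomial.map_sub, h, ← Polynomial.map_sub, h2, Polynomial.map_mul]

/-- The constant coefficient split off. -/
theorem alg0 {R : Type} [CommRing R] (u T : Polynomial R) :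
    u * Polynomial.C (T.coeff 0) + Polynomial.X * (u * T.divX) = u * T := by
  have h := Polynomial.divX_mul_X_add T
  calc u * Polynomial.C (T.coeff 0) + Polynomial.X * (u * T.divX)
      = u * (T.divX * Polynomial.X + Polynomial.C (T.coeff 0)) := by ring
    _ = u * T := by rw [h]

/-- Comparison of the coefficients. -/
theorem alg2 {R A : Type} [CommRing R] [CommRing A] [IsDomain A] (π : R →+* A)
    (W r D U : Polynomial R) (g : ℕ) (hDm : D.Monic) (hDd : D.natDegree = g)
    (hPU : (W + Polynomial.X * r).map π = D.map π * U.map π) (hW : ∀ m, g < m → W.coeff m = 0)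
    (hr : ∀ l, g ≤ l → r.coeff l = 0) :
    π (W.coeff g + (Polynomial.X * r).coeff g) = π (U.coeff 0) := by
  have hPd : ((W + Polynomial.X * r).map π).natDegree ≤ g := by
    refine (Polynomial.natDegree_map_le).trans ?_
    rw [Polynomial.natDegree_le_iff_coeff_eq_zero]
    intro m hm
    rw [Polynomial.coeff_add, hW m hm, zero_add]
    obtain ⟨m', rfl⟩ : ∃ m', m = m' + 1 := ⟨m - 1, by omega⟩
    rw [Polynomial.coeff_X_mul, hr m' (by omega)]
  have hDm' : (D.map π).Monic := hDm.map π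
  have hDd' : (D.map π).natDegree = g := by rw [hDm.natDegree_map, hDd]
  have hUd : (U.map π).natDegree = 0 := by
    by_cases h0 : U.map π = 0
    · rw [h0, Polynomial.natDegree_zero]
    · have h1 := hDm'.natDegree_mul' h0
      rw [← hPU, hDd'] at h1
      omega
  have h5 : ((W + Polynomial.X * r).map π).coeff g = (U.map π).coeff 0 := by
    have h6 : U.map π = Polynomial.C ((U.map π).coeff 0) :=
      Polynomial.eq_C_of_natDegree_eq_zero hUd
    have h7 : (D.map π).coeff g = 1 := by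
      rw [← hDd']
      exact hDm'.coeff_natDegree
    rw [hPU]
    conv_lhs => rw [h6]
    rw [Polynomial.coeff_mul_C, h7, one_mul]
  rw [Polynomial.coeff_map, Polynomial.coeff_map, Polynomial.coeff_add] at h5
  exact h5

/-- `divX` as a sum. -/
theorem divX_sum {R : Type} [CommRing R] (φ : Polynomial R) :
    φ.divX = ∑ k ∈ Finset.range φ.natDegree, φ.coeff (k + 1) • (Polynomial.X ^ k) := by
  ext1 l
  rw [Polynomial.coeff_divX, Polynomial.finsetSum_coeff]
  simp only [Polynomial.coeff_smul, Polynomial.coeff_X_pow, smul_eq_mul, mul_ite, mul_one, mul_zero]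
  rw [Finset.sum_ite_eq]
  split_ifs with h
  · rfl
  · rw [Finset.mem_range, not_lt] at h
    exact Polynomial.coeff_eq_zero_of_natDegree_lt (by omega)

/-- Remainders of sums. -/
theorem rem_sum {R : Type} [CommRing R] {c : ℕ} (D : Polynomial R) (u φ : Fin c → Polynomial R)
    (l : ℕ) :
    ((∑ b, u b * (φ b).divX) %ₘ D).coeff l = ∑ b, ∑ k ∈ Finset.range (φ b).natDegree,
      (φ b).coeff (k + 1) * ((u b * Polynomial.X ^ k) %ₘ D).coeff l := by
  have h1 : (∑ b, u b * (φ b).divX) = ∑ b, ∑ k ∈ Finset.range (φ b).natDegree,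
        (φ b).coeff (k + 1) • (u b * Polynomial.X ^ k) := by
    refine Finset.sum_congr rfl fun b _ => ?_
    rw [divX_sum, Finset.mul_sum]
    exact Finset.sum_congr rfl fun k _ => by rw [mul_smul_comm]
  have h2 : ∀ p : Polynomial R, p %ₘ D = Polynomial.modByMonicHom D p := fun p => rfl
  rw [h1, h2, map_sum, Polynomial.finsetSum_coeff]
  refine Finset.sum_congr rfl fun b _ => ?_
  rw [map_sum, Polynomial.finsetSum_coeff]
  refine Finset.sum_congr rfl fun k _ => ?_
  rw [map_smul, Polynomial.coeff_smul, smul_eq_mul]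
  rfl

variable {N c : ℕ} {I : Ideal (Sx N)} {x : Vx N} (L : Loc I x c)

/-- The components of `n_F` are the coefficients of a remainder. -/
theorem nF_eq (F : Sx N) (y : L.Ix) :
    L.nF F (Sum.inr y) = ((∑ b, tx x (L.coef b y.2) * (tx x (pderiv (L.B b) F)).divX) %ₘ
      L.Db).coeff y.1 :=
  (rem_sum L.Db (fun b => tx x (L.coef b y.2)) (fun b => tx x (pderiv (L.B b) F)) y.1).symm

/-- The elements of `I` vanish on the cone. -/
theorem txI (hB : S_LinB) (hN : S_Null) (hT : S_GTx) (J : Ideal (Sx N)) (hJ : J.IsPrime)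
    (hJh : IsHom J) (hl : ∀ z ∈ zer J, ∀ s t : ℂ, s • x + t • z ∈ zer I) (G : Sx N) (hG : G ∈ I) :
    (tx x G).map (Ideal.Quotient.mk J) = 0 := by
  ext1 n
  rw [Polynomial.coeff_map, Polynomial.coeff_zero]
  refine Ideal.Quotient.eq_zero_iff_mem.2 ((hN N J hJ hJh).1 _ fun z hz => ?_)
  have h1 : eval z ((tx x G).coeff n) = ((tx x G).map (eval z)).coeff n := by
    rw [Polynomial.coeff_map]
  rw [h1, (hT N x G).1 z, (hB N z x G).2.2 I (fun s t => ?_) hG, Polynomial.coeff_zero]
  have h2 := hl z hz t s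
  rwa [add_comm] at h2

/-- Cramer's rule. -/
theorem cr_sum (F : Sx N) (j : Fin (N + 1)) :
    ∑ l, pderiv l F * L.cr j l = L.dt * pderiv j F - ∑ b, L.coef b j * pderiv (L.B b) F := by
  have h : ∀ l, pderiv l F * L.cr j l = (if l = j then L.dt * pderiv j F else 0) -
      ∑ b, (if L.B b = l then L.coef b j * pderiv (L.B b) F else 0) := by
    intro l
    rw [Loc.cr, mul_sub, Finset.mul_sum]
    congr 1
    · split_ifs with h
      · rw [h, mul_comm]
      · rw [mul_zero]
    · refine Finset.sum_congr rfl fun b _ => ?_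
      split_ifs with h
      · rw [h, mul_comm]
      · rw [mul_zero]
  rw [Finset.sum_congr rfl fun l _ => h l, Finset.sum_sub_distrib, Finset.sum_ite_eq',
    if_pos (Finset.mem_univ _), Finset.sum_comm]
  congr 1
  refine Finset.sum_congr rfl fun b _ => ?_
  rw [Finset.sum_ite_eq, if_pos (Finset.mem_univ _)]

/-- Cramer's rule modulo `J`. -/
theorem cr_map (hB : S_LinB) (hN : S_Null) (hCr : S_Cr) (hT : S_GTx) (hD : S_GDb)
    (hI : I.IsPrime) (hIh : IsHom I) (hS : Smooth I c) (J : Ideal (Sx N)) (hJ : J.IsPrime)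
    (hJh : IsHom J) (hl : ∀ z ∈ zer J, ∀ s t : ℂ, s • x + t • z ∈ zer I) (F : Sx N) (hF : F ∈ I)
    (j : Fin (N + 1)) :
    (∑ b, tx x (L.coef b j) * tx x (pderiv (L.B b) F)).map (Ideal.Quotient.mk J) =
      (Polynomial.C (C (eval x L.dt)) * L.Db * tx x (pderiv j F)).map (Ideal.Quotient.mk J) := by
  have h1 : L.dt * pderiv j F - ∑ b, L.coef b j * pderiv (L.B b) F ∈ I := by
    rw [← cr_sum]
    exact (hCr N c I hI hIh hS x L).1 j F hF
  have h3 := txI hB hN hT J hJ hJh hl _ h1
  rw [map_sub, Polynomial.map_sub, sub_eq_zero] at h3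
  have h4 : tx x (L.dt * pderiv j F) =
      Polynomial.C (C (eval x L.dt)) * L.Db * tx x (pderiv j F) := by
    rw [map_mul, (hD N c I x L).2.2.2.1]
  have h5 : tx x (∑ b, L.coef b j * pderiv (L.B b) F) =
      ∑ b, tx x (L.coef b j) * tx x (pderiv (L.B b) F) := by
    rw [map_sum]
    exact Finset.sum_congr rfl fun b _ => map_mul _ _ _
  rw [← h4, ← h5, h3]

end GNbAux

open GNbAux in
theorem tGNb : S_LinB → S_Hom → S_Null → S_Cr → S_GTx → S_GDb → S_GNb := by
  intro hB hHo hN hCr hT hD N c I hI hIh hS x L J hJ hJh hl F hF j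
  have hΔ0 : eval x L.dt ≠ 0 := L.detx
  obtain ⟨hDm, hDd, -, -, -⟩ := hD N c I x L
  have hdom : IsDomain (Sx N ⧸ J) := Ideal.Quotient.isDomain J
  have hco : ∀ b, (L.coef b j).IsHomogeneous L.dg := fun b => (hHo N c I x x L).2.1 b j
  obtain ⟨W, hW⟩ : ∃ W : Polynomial (Sx N),
      W = ∑ b, tx x (L.coef b j) * Polynomial.C (pderiv (L.B b) F) := ⟨_, rfl⟩
  obtain ⟨s, hs⟩ : ∃ s : Polynomial (Sx N),
      s = ∑ b, tx x (L.coef b j) * (tx x (pderiv (L.B b) F)).divX := ⟨_, rfl⟩
  have hsr : s = s %ₘ L.Db + L.Db * (s /ₘ L.Db) := (Polynomial.modByMonic_add_div s L.Db).symm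
  have hWs : W + Polynomial.X * s = ∑ b, tx x (L.coef b j) * tx x (pderiv (L.B b) F) := by
    rw [hW, hs, Finset.mul_sum, ← Finset.sum_add_distrib]
    refine Finset.sum_congr rfl fun b _ => ?_
    have h := alg0 (tx x (L.coef b j)) (tx x (pderiv (L.B b) F))
    rwa [(hT N x (pderiv (L.B b) F)).2.1] at h
  have h1 := alg1 (Ideal.Quotient.mk J) W s (s %ₘ L.Db) L.Db (s /ₘ L.Db) (tx x (pderiv j F))
    (C (eval x L.dt)) hsr (by
      rw [hWs]
      exact cr_map L hB hN hCr hT hD hI hIh hS J hJ hJh hl F hF j)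
  have h2 := alg2 (Ideal.Quotient.mk J) W (s %ₘ L.Db) L.Db _ L.dg hDm hDd h1 (by
      intro m hm
      rw [hW, Polynomial.finsetSum_coeff]
      refine Finset.sum_eq_zero fun b _ => ?_
      rw [Polynomial.coeff_mul_C, (((hT N x (L.coef b j)).2.2 L.dg (hco b)).1 m).2 hm, zero_mul])
    (by
      intro l hl'
      refine Polynomial.coeff_eq_zero_of_degree_lt ?_
      refine lt_of_lt_of_le (Polynomial.degree_modByMonic_lt s hDm) ?_
      rw [Polynomial.degree_eq_natDegree hDm.ne_zero, hDd]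
      exact_mod_cast hl')
  have h8 : (Polynomial.C (C (eval x L.dt)) * tx x (pderiv j F) -
      Polynomial.X * (s /ₘ L.Db)).coeff 0 = C (eval x L.dt) * pderiv j F := by
    rw [Polynomial.coeff_sub, Polynomial.coeff_C_mul, (hT N x (pderiv j F)).2.1,
      Polynomial.coeff_X_mul_zero, sub_zero]
  have h9 : W.coeff L.dg = ∑ b, C (eval x (L.coef b j)) * pderiv (L.B b) F := by
    rw [hW, Polynomial.finsetSum_coeff]
    refine Finset.sum_congr rfl fun b _ => ?_
    rw [Polynomial.coeff_mul_C, ((hT N x (L.coef b j)).2.2 L.dg (hco b)).2]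
  rw [h8, h9] at h2
  -- the sum over the indices
  have h10 : ∑ y : L.Ix, C (L.psi j (Sum.inr y)) * L.nF F (Sum.inr y) =
      C (eval x L.dt)⁻¹ * (Polynomial.X * (s %ₘ L.Db)).coeff L.dg := by
    have h11 : ∀ y : L.Ix, C (L.psi j (Sum.inr y)) * L.nF F (Sum.inr y) =
        if (y.1 : ℕ) + 1 = L.dg ∧ y.2 = j then
          C (eval x L.dt)⁻¹ * (s %ₘ L.Db).coeff y.1 else 0 := by
      intro y
      change C (if (y.1 : ℕ) + 1 = L.dg ∧ y.2 = j then (eval x L.dt)⁻¹ else 0) *
        L.nF F (Sum.inr y) = _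
      split_ifs with h
      · rw [nF_eq, h.2, hs]
      · rw [C_0, zero_mul]
    rw [Finset.sum_congr rfl fun y _ => h11 y]
    by_cases hg : L.dg = 0
    · rw [Finset.sum_eq_zero]
      · have h12 : (Polynomial.X * (s %ₘ L.Db)).coeff L.dg = 0 := by
          rw [hg, Polynomial.coeff_X_mul_zero]
        rw [h12, mul_zero]
      · intro y _
        exact absurd y.1.2 (by omega)
    · obtain ⟨g', hg'⟩ : ∃ g', L.dg = g' + 1 := ⟨L.dg - 1, by omega⟩
      have h12 : (Polynomial.X * (s %ₘ L.Db)).coeff L.dg = (s %ₘ L.Db).coeff g' := by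
        rw [hg', Polynomial.coeff_X_mul]
      rw [h12, Finset.sum_eq_single (⟨⟨g', by omega⟩, j⟩ : L.Ix)]
      · rw [if_pos ⟨hg'.symm, rfl⟩]
      · intro y _ hy
        rw [if_neg]
        rintro ⟨h1, h2⟩
        refine hy (Prod.ext (Fin.ext ?_) h2)
        change (y.1 : ℕ) = g'
        omega
      · intro h
        exact absurd (Finset.mem_univ _) h
  have h13 : ∑ b, C (L.psi j (Sum.inl b)) * L.nF F (Sum.inl b) =
      C (eval x L.dt)⁻¹ * ∑ b, C (eval x (L.coef b j)) * pderiv (L.B b) F := by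
    rw [Finset.mul_sum]
    refine Finset.sum_congr rfl fun b _ => ?_
    change C ((eval x L.dt)⁻¹ * eval x (L.coef b j)) * pderiv (L.B b) F = _
    rw [C_mul, mul_assoc]
  rw [Fintype.sum_sum_type, h10, h13, ← mul_add, ← Ideal.Quotient.eq_zero_iff_mem, map_sub,
    map_mul, h2, ← map_mul, ← mul_assoc, ← C_mul, inv_mul_cancel₀ hΔ0, C_1, one_mul, sub_self]

end Pool.Agent.Lib.MP_776403_ag.SD
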