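import Pool.Agent.Lib.MP_776403_ag.SD.WG.Defs

/-!
# THEOREM W, part GEO: statements

`κ : R_0[σ]^c → (R_0[σ] / Db)^(N+1)`, `κ(f)_j = ∑_b coef_(b j)(X + σ x) f_b mod Db`; its image has
constant rank `a - c` on the cone of lines of conormal degree `-a` through `x`, and the kernel of
`(f, q) ↦ κ(f) + σ q` is the conormal bundle.
-/

set_option autoImplicit false

open MvPolynomial

noncomputable section

namespace Pool.Agent.Lib.MP_776403_ag.SD

/-- (GTx) `F(X + σ x)`.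

PROOF.  (1) algebra homomorphisms: `Polynomial.mapRingHom (eval z)` composed with `tx x` and
`lin z x` agree on the variables and on constants.  (2) `Polynomial.constantCoeff ∘ tx x` is the
identity on the variables.  (3) Both properties for `F = X i`, constants; they are multiplicative
(`Hg m p`, `Hg n q` imply `Hg (m + n) (p * q)`, and `coeff (m + n) = coeff m * coeff n`) and additive;
a form of degree `f` is a sum of terms `C a * ∏ X_i` with `f` factors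
(`MvPolynomial.IsHomogeneous` and induction on `F` as a sum of monomials). -/
def S_GTx : Prop :=
  ∀ (N : ℕ) (x : Vx N) (F : Sx N),
    (∀ z : Vx N, (tx x F).map (eval z) = lin z x F) ∧ (tx x F).coeff 0 = F ∧
    ∀ f : ℕ, F.IsHomogeneous f → Hg f (tx x F) ∧ (tx x F).coeff f = C (eval x F)

/-- (GMod) Homogeneous polynomials in `σ` and division by a monic one.

PROOF.  (1), (2): `coeff_mul`, `Finset.antidiagonal`.  (3): strong induction on `p.natDegree`.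
If `p.degree < D.degree` then `p %ₘ D = p` (`Polynomial.modByMonic_eq_self_iff`).  Otherwise
`d = p.natDegree ≥ g`, `l = p.leadingCoeff`, `p' = p - D * (C l * X^(d - g))` has smaller degree (or is
zero), `Hg n p'` (`d ≤ n` if `p ≠ 0`, `l` is homogeneous of degree `n - d`, `X^(d-g)` is `Hg (d-g)`), and
`p %ₘ D = p' %ₘ D` (`Polynomial.add_modByMonic`, `Polynomial.self_mul_modByMonic`; see the
definition of `Polynomial.divModByMonicAux`). -/
def S_GMod : Prop :=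
  ∀ (N : ℕ), (∀ (m n : ℕ) (p q : Polynomial (Sx N)), Hg m p → Hg n q → Hg (m + n) (p * q)) ∧
    (∀ (n : ℕ) (p q : Polynomial (Sx N)), Hg n p → Hg n q → Hg n (p + q)) ∧
    (∀ k : ℕ, Hg k (Polynomial.X ^ k : Polynomial (Sx N))) ∧
    (∀ (n : ℕ) (F : Sx N), F.IsHomogeneous n → Hg n (Polynomial.C F)) ∧
    ∀ (D : Polynomial (Sx N)) (g : ℕ), D.Monic → D.natDegree = g → Hg g D →
      ∀ (n : ℕ) (p : Polynomial (Sx N)), Hg n p → Hg n (p %ₘ D)

/-- (GDb) PROOF.  `S_Hom`: `L.dt` is a form of degree `L.dg`; `GTx`: `Hg L.dg (tx x L.dt)`, with the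
coefficient `C (Δ(x))` at `L.dg`, `Δ(x) ≠ 0` (`L.detx`). -/
def S_GDb : Prop :=
  ∀ (N c : ℕ) (I : Ideal (Sx N)) (x : Vx N) (L : Loc I x c),
    L.Db.Monic ∧ L.Db.natDegree = L.dg ∧ Hg L.dg L.Db ∧ tx x L.dt = Polynomial.C (C (eval x L.dt)) * L.Db ∧
    ∀ z : Vx N, L.Db.map (eval z) = Polynomial.C (eval x L.dt)⁻¹ * lin z x L.dt

/-- (GQk) The vectors `q i k`.

PROOF.  (1) `Polynomial.map_modByMonic` (`Db` is monic), `GTx` (1), and `f = single i (X^k)`.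
(2) `S_Hom`: `coef` is a form of degree `L.dg`; `GTx`, `GMod`.  (3) Write
`r = (tx x (coef i y.2) * X^k) %ₘ Db`; `r.degree < Db.degree`, so
`r = ∑_(l' < g) C (r.coeff l') * X^l'`, and `(X * r) %ₘ Db = ∑_(l') C (r.coeff l') * (X^(l'+1) %ₘ Db)`
(`Polynomial.modByMonic` is `S`-linear: `Polynomial.modByMonicHom`); finally
`(X * r) %ₘ Db = (X * (tx * X^k)) %ₘ Db`, because `tx * X^k - r` is divisible by `Db`
(`Polynomial.modByMonic_add_div`, `Polynomial.modByMonic_eq_zero_iff_dvd`). -/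
def S_GQk : Prop :=
  ∀ (N c : ℕ) (I : Ideal (Sx N)) (x : Vx N) (L : Loc I x c) (i : Fin c) (k : ℕ),
    (∀ z : Vx N, L.kap z (Pi.single i (Polynomial.X ^ k)) = fun y => eval z (L.qk i k y)) ∧
    (∀ y : L.Ix, (L.qk i k y).IsHomogeneous (k + 1 + (L.dg - 1 - y.1))) ∧
    (∀ y : L.Ix, L.mm y (Sum.inl i) = L.qk i 0 y) ∧
    ∀ y : L.Ix, ∑ y', L.mm y (Sum.inr y') * L.qk i k y' = L.qk i (k + 1) y

/-- (GNa) `M n_F = 0` modulo `J`.

PROOF.  `φ_b = tx x (∂_(B b) F)`, `φ_b = C (∂_(B b) F) + X * ∑_k C (φ_b.coeff (k+1)) X^k`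
(`GTx` (2), `Polynomial.divX`).  So by `GQk` (3) the left side is the coefficient `y.1` of
`(∑_b tx x (coef b y.2) * φ_b) %ₘ Db = (tx x (∑_b coef b y.2 * ∂_(B b) F)) %ₘ Db`.  `S_Cr` (`cr j ∈ TF I`):
`∑_b coef b j * ∂_(B b) F = Δ ∂_j F - G`, `G ∈ I`.  `tx x (Δ ∂_j F)` is divisible by `Db` (`GDb`).  All
coefficients of `tx x G` are in `J`: they vanish at all `z ∈ zer J`, as `lin z x G = 0` (`GTx` (1);
`S_LinB` or the hypothesis on the lines), `S_Null`.  The coefficients of `(tx x G) %ₘ Db` are in `J`: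
map to `(S / J)[σ]` (`Polynomial.map_modByMonic`). -/
def S_GNa : Prop :=
  ∀ (N c : ℕ) (I : Ideal (Sx N)), I.IsPrime → IsHom I → Smooth I c → ∀ (x : Vx N) (L : Loc I x c)
    (J : Ideal (Sx N)), J.IsPrime → IsHom J → (∀ z ∈ zer J, ∀ s t : ℂ, s • x + t • z ∈ zer I) →
    ∀ F ∈ I, ∀ y : L.Ix, ∑ u, L.mm y u * L.nF F u ∈ J

/-- (GNb) `Ψ n_F = grad F` modulo `J`.

PROOF.  Notation of `GNa`.  Over `A = (S / J)[σ]`, a polynomial ring over a domain, `j` fixed: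
`s = ∑_b tx(coef b j) (∑_k C (φ_b.coeff (k+1)) X^k)`, `r = s %ₘ Db`, `s = r + Db * Q`.  The coefficient
`l` of `r` is `n_F (inr (l, j))`.  By `GNa`'s computation
`∑_b tx(coef b j) C (∂_(B b) F) + X * s = ∑_b tx(coef b j) φ_b = C(Δ(x)) Db tx(∂_j F)` in `A`.  So
`P := ∑_b tx(coef b j) C (∂_(B b) F) + X * r = Db * U`, `U = C(Δ(x)) tx(∂_j F) - X * Q` in `A`.  `P` has
degree `≤ g` (`tx(coef b j)` has degree `≤ g`, `r` has degree `< g`), `Db` is monic of degree `g`, so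
`U` is a constant, equal to the coefficient `g` of `P`: `∑_b coef_(b j)(x) ∂_(B b) F + r.coeff (g-1)`
(`GTx` (3); `g ≥ 1`, and no second term if `g = 0`), and to its constant coefficient
`Δ(x) ∂_j F`. -/
def S_GNb : Prop :=
  ∀ (N c : ℕ) (I : Ideal (Sx N)), I.IsPrime → IsHom I → Smooth I c → ∀ (x : Vx N) (L : Loc I x c)
    (J : Ideal (Sx N)), J.IsPrime → IsHom J → (∀ z ∈ zer J, ∀ s t : ℂ, s • x + t • z ∈ zer I) →
    ∀ F ∈ I, ∀ j, ∑ u, C (L.psi j u) * L.nF F u - pderiv j F ∈ J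

/-- (GSat) The kernel of `κ_z` is the module of the gradients.

PROOF.  `D = lin z x L.dt`, `D ≠ 0` (coefficient `Δ(x)` at `L.dg`).  `κ_z(f) = 0` iff `D` divides
`∑_b lin (coef b j) f_b` for all `j` (`GDb`; the remainder has degree `< g`).  `EZ ≤ ker`: `S_Cr`:
`∑_b lin(coef b j) lin(∂_(B b) F) = D lin(∂_j F)` (`lin z x` kills `I`, as `span (x, z)` is in `zer I`).
`ker ≤ EZ`: let `D n_j = ∑_b lin(coef b j) f_b = ∑_i u_i lin(∂_j F_i)`, `u_i = ∑_b lin(adj_(b i)) f_b`,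
`F_i = L.F i` (definition of `coef`).  `n_(B b) = f_b` (`CrLAux.adj_M`).  For `t₀ ∈ ℂ`, `y = z + t₀ x ≠ 0`,
`L' : Loc I y c` (`S_Loc`): with `s_i'(w) = ∑_b' lin(adj'_(b' i')) w_(B' b')` one has
`lin(L'.dt) lin(∂_j F_i) = ∑_i' s_i'(grad F_i) lin(∂_j F'_i')` (`S_CrL` (1), for `lin z x`,
`y = z + t₀ x`, and the definition of `coef'`), so
`D lin(L'.dt) n_j = ∑_i u_i ∑_i' s_i'(grad F_i) lin(∂_j F'_i') = D ∑_i' s_i'(n) lin(∂_j F'_i')`; cancel
`D`; the coordinates `B b`: `lin(L'.dt) • f ∈ EZ`, and `lin(L'.dt)(t₀) ≠ 0`.  The ideal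
`{s ∈ ℂ[σ] : s • f ∈ EZ}` has no zero, so it contains `1`. -/
def S_GSat : Prop :=
  ∀ (N c : ℕ) (I : Ideal (Sx N)), I.IsPrime → IsHom I → Smooth I c → ∀ (x z : Vx N),
    IsLine I x z → ∀ (L : Loc I x c) (f : Fin c → Polynomial ℂ), L.kap z f = 0 ↔ f ∈ L.EZ z

/-- (GCol) The colength.

PROOF.  `J = lineI x z` (`S_LineI`: prime, homogeneous; `I ≤ J`).  `A = idB I J L.B`, homogeneous,
`Δ = mnr L.F L.B ∈ A`.  `S_JFit` for `𝒢 = {lin z x (∂_B F) : F ∈ I}`: `D ℂ[σ]^c ≤ EZ` (rows of `lin M` and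
the adjugate), and the ideal of the determinants is `A.map (lin z x)` (`lin z x` kills `J`), so
`dim ℂ[σ]^c / EZ = col A x z`.  `S_Good`: `v = z + μ x` with `L.good v`; `lineI x v = lineI x z`,
`IsLine I x v`; `S_JFit` for `𝒢 = {lin x v (∂_B F)}`: `dim ℂ[t]^c / L.E v = dim ℂ[t] / A.map (lin x v)`.
`S_JRev` for `x, v` and for `v, x` (`L.dt (v) ≠ 0`): `= col A x v`, `S_JTr`: `= col A x z`.  `S_JSur`:
`finrank (Lam I (lineI x v) 1 m) + col A x z = c m` for large `m`. -/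
def S_GCol : Prop :=
  ∀ (N c a : ℕ) (I : Ideal (Sx N)), I.IsPrime → IsHom I → Smooth I c → ∀ (x z : Vx N),
    IsLine I x z → (∀ᶠ m : ℕ in Filter.atTop,
      Module.finrank ℂ (Lam I (lineI x z) 1 m) + a = c * (m + 1)) → ∀ L : Loc I x c,
    Module.Finite ℂ ((Fin c → Polynomial ℂ) ⧸ L.EZ z) ∧
      Module.finrank ℂ ((Fin c → Polynomial ℂ) ⧸ L.EZ z) + c = a

/-- (GRk) PROOF (`GQk`, `GSat`, `GCol`).  The span of the `q i k (z)` is the range of `κ_z` (the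
`Pi.single i (X^k)` span `ℂ[σ]^c`), isomorphic to `ℂ[σ]^c / ker κ_z = ℂ[σ]^c / EZ`. -/
def S_GRk : Prop :=
  ∀ (N c a : ℕ) (I : Ideal (Sx N)), I.IsPrime → IsHom I → Smooth I c → ∀ (x z : Vx N),
    IsLine I x z → (∀ᶠ m : ℕ in Filter.atTop,
      Module.finrank ℂ (Lam I (lineI x z) 1 m) + a = c * (m + 1)) → ∀ L : Loc I x c,
    Module.finrank ℂ (Submodule.span ℂ (Set.range fun ik : Fin c × ℕ =>
      fun y : L.Ix => eval z (L.qk ik.1 ik.2 y))) + c = a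

end Pool.Agent.Lib.MP_776403_ag.SD
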